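import Pool.Agent.Run7.h420.TM.Stm

/-!
# Piece SHEAR of project TM (helper420, MP_45e9b0_lc)
-/

set_option autoImplicit false

namespace Pool.Agent.Run7.h298.TM

open MeasureTheory Filter Topology Set
open Pool.Agent.Run7.h420.TM

/-- The representative in `(0,1]`. -/
noncomputable def rho (z : UnitAddCircle) : ℝ := ((AddCircle.equivIoc (1 : ℝ) 0 z : Ioc (0 : ℝ) (0 + 1)) : ℝ)

lemma coe_rho (z : UnitAddCircle) : ((rho z : ℝ) : UnitAddCircle) = z :=
  (AddCircle.equivIoc (1 : ℝ) 0).symm_apply_apply z

lemma mp_rho : MeasurePreserving rho (volume : Measure UnitAddCircle)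
    ((volume : Measure ℝ).restrict (Ioc (0 : ℝ) 1)) := by
  have h1 := AddCircle.measurePreserving_equivIoc (T := (1 : ℝ)) (a := 0)
  have h2 : MeasurePreserving (Subtype.val : Ioc (0 : ℝ) (0 + 1) → ℝ)
      (Measure.comap Subtype.val volume) (volume.restrict (Ioc (0 : ℝ) (0 + 1))) :=
    measurePreserving_subtype_coe measurableSet_Ioc
  have h3 := h2.comp h1
  have h4 : (volume : Measure ℝ).restrict (Ioc (0 : ℝ) (0 + 1)) =
      (volume : Measure ℝ).restrict (Ioc (0 : ℝ) 1) := by rw [zero_add]
  rw [h4] at h3
  exact h3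

theorem t_SHEAR (hP : S_PROBS) : S_SHEAR := by
  intro G _ _
  have := hP.1
  have := hP.2
  let gg : XX G → XX G → YY G := fun x z h => rho (z h - x h)
  have hgg : Measurable (Function.uncurry gg) := by
    have hx : ∀ h : G, Measurable (fun p : XX G × XX G => p.1 h) := fun h =>
      (measurable_pi_apply h).comp measurable_fst
    have hz : ∀ h : G, Measurable (fun p : XX G × XX G => p.2 h) := fun h =>
      (measurable_pi_apply h).comp measurable_snd
    exact measurable_pi_lambda _ fun h => mp_rho.measurable.comp ((hz h).sub (hx h))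
  have hmap : ∀ x : XX G, Measure.map (gg x) (muX G) = muY G := by
    intro x
    have hf : ∀ h : G, MeasurePreserving (fun z : UnitAddCircle => rho (z - x h))
        (volume : Measure UnitAddCircle) ((volume : Measure ℝ).restrict (Ioc (0 : ℝ) 1)) :=
      fun h => mp_rho.comp (measurePreserving_sub_right volume (x h))
    have h1 := Measure.infinitePi_map_pi (μ := fun _ : G => (volume : Measure UnitAddCircle))
      (f := fun (h : G) (z : UnitAddCircle) => rho (z - x h)) (fun h => (hf h).measurable)
    have h2 : (fun h : G => Measure.map (fun z : UnitAddCircle => rho (z - x h))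
        (volume : Measure UnitAddCircle)) = fun _ => (volume : Measure ℝ).restrict (Ioc (0 : ℝ) 1) :=
      funext fun h => (hf h).map_eq
    rw [h2] at h1
    exact h1
  have : IsProbabilityMeasure (muX G) :=
    inferInstanceAs (IsProbabilityMeasure (Measure.infinitePi
      (fun _ : G => (volume : Measure UnitAddCircle))))
  refine ⟨fun p => (p.1, gg p.1 p.2), ?_, ?_, ?_, ?_⟩
  · exact (MeasurePreserving.id (muX G)).skew_product hgg (Eventually.of_forall hmap)
  · intro g p
    rfl
  · intro p
    funext h
    show p.1 h + (((0 : ℝ) * gg p.1 p.2 h : ℝ) : UnitAddCircle) = p.1 h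
    rw [zero_mul, AddCircle.coe_zero, add_zero]
  · intro p
    funext h
    show p.1 h + (((1 : ℝ) * rho (p.2 h - p.1 h) : ℝ) : UnitAddCircle) = p.2 h
    rw [one_mul, coe_rho]
    abel

end Pool.Agent.Run7.h298.TM


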